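import Pool.Agent.TH660.NN.Core

/-!
# Completeness of the construction for non-nesting matchings
-/

set_option autoImplicit false

namespace Pool.Agent.TH660.NN

/-- the edges of the solution -/
def InM (n m : ℕ) (s c : ℕ → ℕ) (e : ℕ × ℕ × ℕ) : Prop :=
  e.2.2 < n ∧ ((e.1 = 0 ∧ e.2.1 = m ∧ s e.2.2 = 0) ∨
    (e.1 = 1 ∧ e.2.1 < m ∧ e.2.2 ≤ c e.2.1) ∨
    (e.1 = 2 ∧ e.2.1 < m ∧ c e.2.1 ≤ e.2.2) ∨
    (e.1 = 3 ∧ e.2.1 < m ∧ s e.2.2 = 1 ∧ c e.2.1 ≤ e.2.2) ∨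
    (e.1 = 4 ∧ e.2.1 < m ∧ s e.2.2 = 1 ∧ e.2.2 < c e.2.1) ∨
    (e.1 = 5 ∧ e.2.1 < m ∧ s e.2.2 = 0 ∧ c e.2.1 ≤ e.2.2) ∨
    (e.1 = 6 ∧ e.2.1 < m ∧ s e.2.2 = 0 ∧ e.2.2 < c e.2.1) ∨
    (e.1 = 7 ∧ e.2.1 < m ∧ s e.2.2 = 1) ∨
    (e.1 = 8 ∧ e.2.1 < m ∧ s e.2.2 = 0) ∨
    (e.1 = 9 ∧ e.2.1 < m ∧ s e.2.2 = 1) ∨
    (e.1 = 10 ∧ e.2.1 < m ∧ s e.2.2 = 0))

theorem al_cases (b : Bool) : al b = 2 ∨ al b = 5 := by
  cases b
  · exact Or.inr rfl
  · exact Or.inl rfl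

/-- the numeric data of an edge of the solution: block, column and slot of the left end, column and
slot of the right end -/
theorem data {n m : ℕ} {lit : ℕ → ℕ → Bool} {s c : ℕ → ℕ} (hsc : ∀ j < m, s (c j) = 1)
    (hlit : ∀ j < m, lit j (c j) = true) {k j i : ℕ} (he : InM n m s c (k, j, i)) :
    (k = 0 ∧ lb k j = 0 ∧ lc k i = i ∧ ls k = 1 ∧ rs (al (lit j i)) k = 1 ∧ s i = 0 ∧ j = m) ∨
    (k = 1 ∧ lb k j = 1 + 2 * j ∧ lc k i = i ∧ ls k = 0 ∧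
      ((rs (al (lit j i)) k = 2 ∧ i ≤ c j) ∨ (rs (al (lit j i)) k = 5 ∧ i < c j))) ∨
    (k = 2 ∧ lb k j = 1 + 2 * j ∧ lc k i = i + 1 ∧ ls k = 0 ∧ rs (al (lit j i)) k = 4 ∧ c j ≤ i) ∨
    (k = 3 ∧ lb k j = 1 + 2 * j ∧ lc k i = i ∧ ls k = 1 ∧ rs (al (lit j i)) k = 3 ∧ s i = 1 ∧
      c j ≤ i) ∨
    (k = 4 ∧ lb k j = 1 + 2 * j ∧ lc k i = i ∧ ls k = 1 ∧ rs (al (lit j i)) k = 7 ∧ s i = 1 ∧
      i < c j) ∨
    (k = 5 ∧ lb k j = 1 + 2 * j ∧ lc k i = i ∧ ls k = 3 ∧ rs (al (lit j i)) k = 1 ∧ s i = 0 ∧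
      c j < i) ∨
    (k = 6 ∧ lb k j = 1 + 2 * j ∧ lc k i = i ∧ ls k = 3 ∧ rs (al (lit j i)) k = 6 ∧ s i = 0 ∧
      i < c j) ∨
    (k = 7 ∧ lb k j = 2 + 2 * j ∧ lc k i = i ∧ ls k = 1 ∧ rs (al (lit j i)) k = 3 ∧ s i = 1) ∨
    (k = 8 ∧ lb k j = 2 + 2 * j ∧ lc k i = i ∧ ls k = 3 ∧ rs (al (lit j i)) k = 1 ∧ s i = 0) ∨
    (k = 9 ∧ lb k j = 2 + 2 * j ∧ lc k i = i ∧ ls k = 6 ∧ rs (al (lit j i)) k = 4 ∧ s i = 1) ∨
    (k = 10 ∧ lb k j = 2 + 2 * j ∧ lc k i = i ∧ ls k = 7 ∧ rs (al (lit j i)) k = 2 ∧ s i = 0) := by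
  obtain ⟨hi, h⟩ := he
  simp only at hi h
  rcases h with ⟨rfl, h1, h2⟩ | ⟨rfl, h1, h2⟩ | ⟨rfl, h1, h2⟩ | ⟨rfl, h1, h2, h3⟩ |
    ⟨rfl, h1, h2, h3⟩ | ⟨rfl, h1, h2, h3⟩ | ⟨rfl, h1, h2, h3⟩ | ⟨rfl, h1, h2⟩ | ⟨rfl, h1, h2⟩ |
    ⟨rfl, h1, h2⟩ | ⟨rfl, h1, h2⟩
  · exact Or.inl ⟨rfl, rfl, rfl, rfl, rfl, h2, h1⟩
  · refine Or.inr (Or.inl ⟨rfl, rfl, rfl, rfl, ?_⟩)
    have h3 : rs (al (lit j i)) 1 = al (lit j i) := rfl
    rw [h3]
    by_cases h4 : i = c j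
    · left
      rw [h4, hlit j h1]
      exact ⟨rfl, le_refl _⟩
    · rcases al_cases (lit j i) with h5 | h5
      · exact Or.inl ⟨h5, h2⟩
      · exact Or.inr ⟨h5, by omega⟩
  · exact Or.inr (Or.inr (Or.inl ⟨rfl, rfl, rfl, rfl, rfl, h2⟩))
  · exact Or.inr (Or.inr (Or.inr (Or.inl ⟨rfl, rfl, rfl, rfl, rfl, h2, h3⟩)))
  · exact Or.inr (Or.inr (Or.inr (Or.inr (Or.inl ⟨rfl, rfl, rfl, rfl, rfl, h2, h3⟩))))
  · refine Or.inr (Or.inr (Or.inr (Or.inr (Or.inr (Or.inl ⟨rfl, rfl, rfl, rfl, rfl, h2, ?_⟩)))))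
    rcases Nat.lt_or_eq_of_le h3 with h4 | h4
    · exact h4
    · exfalso
      have := hsc j h1
      rw [h4] at this
      omega
  · exact Or.inr (Or.inr (Or.inr (Or.inr (Or.inr (Or.inr
      (Or.inl ⟨rfl, rfl, rfl, rfl, rfl, h2, h3⟩))))))
  · exact Or.inr (Or.inr (Or.inr (Or.inr (Or.inr (Or.inr (Or.inr
      (Or.inl ⟨rfl, rfl, rfl, rfl, rfl, h2⟩)))))))
  · exact Or.inr (Or.inr (Or.inr (Or.inr (Or.inr (Or.inr (Or.inr (Or.inr
      (Or.inl ⟨rfl, rfl, rfl, rfl, rfl, h2⟩))))))))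
  · exact Or.inr (Or.inr (Or.inr (Or.inr (Or.inr (Or.inr (Or.inr (Or.inr (Or.inr
      (Or.inl ⟨rfl, rfl, rfl, rfl, rfl, h2⟩)))))))))
  · exact Or.inr (Or.inr (Or.inr (Or.inr (Or.inr (Or.inr (Or.inr (Or.inr (Or.inr (Or.inr
      ⟨rfl, rfl, rfl, rfl, rfl, h2⟩)))))))))

set_option maxHeartbeats 4000000 in
theorem compat {n m : ℕ} {lit : ℕ → ℕ → Bool} {s c : ℕ → ℕ} (hsc : ∀ j < m, s (c j) = 1)
    (hlit : ∀ j < m, lit j (c j) = true) {e f : ℕ × ℕ × ℕ} (he : InM n m s c e)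
    (hf : InM n m s c f) (hne : e ≠ f) : Bf lit e f ∨ Bf lit f e := by
  obtain ⟨k, j, i⟩ := e
  obtain ⟨k', j', i'⟩ := f
  have hne' : ¬ (k = k' ∧ j = j' ∧ i = i') := by
    rintro ⟨rfl, rfl, rfl⟩
    exact hne rfl
  have h1 := data hsc hlit he
  have h2 := data hsc hlit hf
  have hs : i = i' → s i = s i' := by rintro rfl; rfl
  have hcj : j = j' → c j = c j' := by rintro rfl; rfl
  have ha : i = i' → j = j' → al (lit j i) = al (lit j' i') := by rintro rfl rfl; rfl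
  unfold Bf Lx
  simp only
  clear he hf hne hsc hlit
  generalize lb k j = b1 at *
  generalize lb k' j' = b2 at *
  generalize lc k i = c1 at *
  generalize lc k' i' = c2 at *
  generalize ls k = s1 at *
  generalize ls k' = s2 at *
  generalize rs (al (lit j i)) k = r1 at *
  generalize rs (al (lit j' i')) k' = r2 at *
  generalize s i = si at *
  generalize s i' = si' at *
  generalize c j = cj at *
  generalize c j' = cj' at *
  clear ha
  rcases h1 with h1 | h1 | h1 | h1 | h1 | h1 | h1 | h1 | h1 | h1 | h1 <;>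
  rcases h2 with h2 | h2 | h2 | h2 | h2 | h2 | h2 | h2 | h2 | h2 | h2 <;>
  omega

/-- the edges chosen in a cell -/
def ch (m : ℕ) (H : Finset ℕ) (c : ℕ → ℕ) : Cell → Finset (ℕ × ℕ × ℕ)
  | Sum.inl i => if i ∈ H then ∅ else {(0, m, i)}
  | Sum.inr (Sum.inl p) => {if p.2 ≤ c p.1 then (1, p.1, p.2) else (2, p.1, p.2 - 1)}
  | Sum.inr (Sum.inr p) =>
      if p.2 ∈ H then {(if p.2 < c p.1 then 4 else 3, p.1, p.2), (7, p.1, p.2), (9, p.1, p.2)}
      else {(if p.2 < c p.1 then 6 else 5, p.1, p.2), (8, p.1, p.2), (10, p.1, p.2)}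

theorem ch_cell {m : ℕ} {H : Finset ℕ} {c : ℕ → ℕ} {x : Cell} {e : ℕ × ℕ × ℕ}
    (he : e ∈ ch m H c x) : cell e = x := by
  rcases x with i | ⟨j, r⟩ | ⟨j, i⟩
  · unfold ch at he
    simp only at he
    split_ifs at he
    · simp at he
    · rw [Finset.mem_singleton] at he
      rw [he]
      rfl
  · unfold ch at he
    rw [Finset.mem_singleton] at he
    simp only at he
    split_ifs at he with h
    · rw [he]
      rfl
    · rw [he]
      have h1 : r - 1 + 1 = r := by omega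
      unfold cell
      simp [h1]
  · unfold ch at he
    simp only at he
    split_ifs at he <;> simp only [Finset.mem_insert, Finset.mem_singleton] at he <;>
      rcases he with rfl | rfl | rfl <;> simp [cell]

theorem ch_inM {n m : ℕ} {H : Finset ℕ} {c : ℕ → ℕ} (hc : ∀ j < m, c j < n) {x : Cell}
    (hx : x ∈ cells n m) {e : ℕ × ℕ × ℕ} (he : e ∈ ch m H c x) :
    InM n m (fun i => if i ∈ H then 1 else 0) c e := by
  rw [mem_cells] at hx
  rcases hx with ⟨i, hi, rfl⟩ | ⟨j, hj, r, hr, rfl⟩ | ⟨j, hj, i, hi, rfl⟩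
  · unfold ch at he
    simp only at he
    split_ifs at he with h
    · simp at he
    · rw [Finset.mem_singleton] at he
      subst he
      exact ⟨hi, Or.inl ⟨rfl, rfl, by simp [h]⟩⟩
  · unfold ch at he
    rw [Finset.mem_singleton] at he
    simp only at he
    have h1 := hc j hj
    split_ifs at he with h
    · subst he
      exact ⟨by simp only; omega, Or.inr (Or.inl ⟨rfl, hj, h⟩)⟩
    · subst he
      exact ⟨by simp only; omega, Or.inr (Or.inr (Or.inl ⟨rfl, hj, by simp only; omega⟩))⟩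
  · unfold ch at he
    simp only at he
    unfold InM
    split_ifs at he with h1 h2 h2 <;> simp only [Finset.mem_insert, Finset.mem_singleton] at he <;>
      rcases he with rfl | rfl | rfl <;> simp [h1, hi, hj, h2] <;> omega

theorem inM_vd {n m : ℕ} {s c : ℕ → ℕ} {e : ℕ × ℕ × ℕ} (h : InM n m s c e) : Vd n m e := by
  unfold InM at h
  unfold Vd
  omega

theorem ch_card (m : ℕ) (H : Finset ℕ) (c : ℕ → ℕ) (x : Cell) : (ch m H c x).card =
    match x with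
    | Sum.inl i => if i ∈ H then 0 else 1
    | Sum.inr (Sum.inl _) => 1
    | Sum.inr (Sum.inr _) => 3 := by
  rcases x with i | ⟨j, r⟩ | ⟨j, i⟩
  · unfold ch
    simp only
    split_ifs <;> simp
  · unfold ch
    simp
  · unfold ch
    simp only
    split_ifs <;> rw [Finset.card_insert_of_notMem, Finset.card_insert_of_notMem,
      Finset.card_singleton] <;> simp

/-- **Completeness.** -/
theorem complete {n m k : ℕ} {lit : ℕ → ℕ → Bool} (H : Finset ℕ) (hH : ∀ i ∈ H, i < n)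
    (hk : H.card ≤ k) (hit : ∀ j < m, ∃ i ∈ H, lit j i = true) :
    ∃ M : Finset (ℕ × ℕ × ℕ), (∀ e ∈ M, Vd n m e) ∧
      (∀ e ∈ M, ∀ f ∈ M, e ≠ f → Bf lit e f ∨ Bf lit f e) ∧ caps n m ≤ M.card + k := by
  classical
  choose! c hc hlit using hit
  have hin : ∀ e ∈ (cells n m).biUnion (ch m H c),
      InM n m (fun i => if i ∈ H then 1 else 0) c e := by
    intro e he
    rw [Finset.mem_biUnion] at he
    obtain ⟨x, hx, he⟩ := he
    exact ch_inM (fun j hj => hH _ (hc j hj)) hx he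
  refine ⟨(cells n m).biUnion (ch m H c), fun e he => inM_vd (hin e he), fun e he f hf hne => ?_, ?_⟩
  · refine compat (s := fun i => if i ∈ H then 1 else 0) (c := c) ?_ hlit (hin e he) (hin f hf) hne
    intro j hj
    simp [hc j hj]
  · rw [Finset.card_biUnion]
    · simp only [ch_card]
      rw [sum_cells]
      simp only [Finset.sum_const, Finset.card_product, Finset.card_range, smul_eq_mul, mul_one]
      have h1 : ∑ i ∈ Finset.range n, (if i ∈ H then 0 else 1) +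
          ∑ i ∈ Finset.range n, (if i ∈ H then 1 else 0) = n := by
        rw [← Finset.sum_add_distrib]
        have h2 : ∀ i ∈ Finset.range n, ((if i ∈ H then 0 else 1) + (if i ∈ H then 1 else 0)) = 1 := by
          intro i _
          split_ifs <;> rfl
        rw [Finset.sum_congr rfl h2]
        simp
      have h3 : ∑ i ∈ Finset.range n, (if i ∈ H then 1 else 0) ≤ H.card := by
        rw [← Finset.card_filter]
        exact Finset.card_le_card (fun i hi => (Finset.mem_filter.1 hi).2)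
      unfold caps
      have h4 : m * n * 3 = 3 * (m * n) := by ring
      omega
    · intro x _ y _ hxy
      change Disjoint _ _
      rw [Finset.disjoint_left]
      intro e he hf
      exact hxy ((ch_cell he).symm.trans (ch_cell hf))

end Pool.Agent.TH660.NN
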