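import Mathlib

/-!
# The combinatorial core of the hardness proof for non-nesting matchings

The edges of the constructed ordered graph are coded by triples `(k, j, i)`, where `k` is the kind
of the edge. The vertices are triples (block, column, slot), ordered lexicographically. Each edge
leads from a block to the next one.
-/

set_option autoImplicit false

namespace Pool.Agent.TH660.NN

/-- the block of the left end -/
def lb (k j : ℕ) : ℕ := if k = 0 then 0 else if k ≤ 6 then 1 + 2 * j else 2 + 2 * j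

/-- the column of the left end -/
def lc (k i : ℕ) : ℕ := if k = 2 then i + 1 else i

/-- the slot of the left end -/
def ls (k : ℕ) : ℕ := [1, 0, 0, 1, 1, 3, 3, 1, 3, 6, 7].getD k 0

/-- the slot of the right end -/
def rs (a k : ℕ) : ℕ := [1, a, 4, 3, 7, 1, 6, 3, 1, 4, 2].getD k 0

/-- the slot of the right end of a token edge -/
def al (b : Bool) : ℕ := if b = true then 2 else 5

/-- lexicographic order -/
def Lx (b i s b' i' s' : ℕ) : Prop := b < b' ∨ (b = b' ∧ (i < i' ∨ (i = i' ∧ s < s')))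

/-- the edge `e` comes before the edge `f`, and they have no end in common -/
def Bf (lit : ℕ → ℕ → Bool) (e f : ℕ × ℕ × ℕ) : Prop :=
  Lx (lb e.1 e.2.1) (lc e.1 e.2.2) (ls e.1) (lb f.1 f.2.1) (lc f.1 f.2.2) (ls f.1) ∧
  Lx (lb e.1 e.2.1 + 1) e.2.2 (rs (al (lit e.2.1 e.2.2)) e.1)
    (lb f.1 f.2.1 + 1) f.2.2 (rs (al (lit f.2.1 f.2.2)) f.1) ∧
  ¬ (lb e.1 e.2.1 + 1 = lb f.1 f.2.1 ∧ e.2.2 = lc f.1 f.2.2 ∧
    rs (al (lit e.2.1 e.2.2)) e.1 = ls f.1)

/-- the codes of the edges -/
def Vd (n m : ℕ) (e : ℕ × ℕ × ℕ) : Prop :=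
  e.1 < 11 ∧ e.2.2 < n ∧ ((e.1 = 0 ∧ e.2.1 = m) ∨ (e.1 ≠ 0 ∧ e.2.1 < m))

/-- the number of edges of a perfect solution -/
def caps (n m : ℕ) : ℕ := n + (m * (n + 1) + 3 * (m * n))

/-- the type of the cells -/
abbrev Cell : Type := ℕ ⊕ ((ℕ × ℕ) ⊕ (ℕ × ℕ))

/-- the cell of an edge -/
def cell (e : ℕ × ℕ × ℕ) : Cell :=
  if e.1 = 0 then Sum.inl e.2.2
  else if e.1 = 1 then Sum.inr (Sum.inl (e.2.1, e.2.2))
  else if e.1 = 2 then Sum.inr (Sum.inl (e.2.1, e.2.2 + 1))
  else Sum.inr (Sum.inr (e.2.1, e.2.2))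

/-- the capacity of a cell -/
def cap : Cell → ℕ
  | Sum.inl _ => 1
  | Sum.inr (Sum.inl _) => 1
  | Sum.inr (Sum.inr _) => 3

/-- the set of the cells -/
def cells (n m : ℕ) : Finset Cell :=
  (Finset.range n).disjSum
    ((Finset.range m ×ˢ Finset.range (n + 1)).disjSum (Finset.range m ×ˢ Finset.range n))

theorem sum_cells (n m : ℕ) (f : Cell → ℕ) : ∑ c ∈ cells n m, f c =
    ∑ i ∈ Finset.range n, f (Sum.inl i) +
      (∑ p ∈ Finset.range m ×ˢ Finset.range (n + 1), f (Sum.inr (Sum.inl p)) +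
        ∑ p ∈ Finset.range m ×ˢ Finset.range n, f (Sum.inr (Sum.inr p))) := by
  unfold cells
  rw [Finset.sum_disjSum, Finset.sum_disjSum]

theorem sum_cap (n m : ℕ) : ∑ c ∈ cells n m, cap c = caps n m := by
  rw [sum_cells]
  simp only [cap, Finset.sum_const, Finset.card_range, Finset.card_product, smul_eq_mul, mul_one]
  unfold caps
  ring

theorem mem_cells {n m : ℕ} {c : Cell} : c ∈ cells n m ↔
    (∃ i < n, c = Sum.inl i) ∨ (∃ j < m, ∃ r < n + 1, c = Sum.inr (Sum.inl (j, r))) ∨
      ∃ j < m, ∃ i < n, c = Sum.inr (Sum.inr (j, i)) := by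
  unfold cells
  rcases c with i | ⟨j, r⟩ | ⟨j, i⟩
  · simp [Finset.mem_disjSum]
  · simp [Finset.mem_disjSum]
  · simp [Finset.mem_disjSum]

theorem cell_mem {n m : ℕ} {e : ℕ × ℕ × ℕ} (h : Vd n m e) : cell e ∈ cells n m := by
  obtain ⟨k, j, i⟩ := e
  obtain ⟨h1, h2, h3⟩ := h
  simp only at h1 h2 h3
  rw [mem_cells]
  unfold cell
  simp only
  split_ifs with h4 h5 h6
  · exact Or.inl ⟨i, h2, rfl⟩
  · exact Or.inr (Or.inl ⟨j, by omega, i, by omega, rfl⟩)
  · exact Or.inr (Or.inl ⟨j, by omega, i + 1, by omega, rfl⟩)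
  · exact Or.inr (Or.inr ⟨j, by omega, i, h2, rfl⟩)

/-! ### A group of eight edges -/

/-- the check of the groups -/
def gb (x3 x4 x5 x6 x7 x8 x9 x10 : Bool) : Bool :=
  (x3 && x4) || (x3 && x5) || (x4 && x5) || (x4 && x6) || (x5 && x6) || (x3 && x8) ||
  (x4 && x10) || (x5 && x7) || (x6 && x9) || (x7 && x8) || (x9 && x10) || (x7 && x10) ||
  (decide (x3.toNat + x4.toNat + x5.toNat + x6.toNat + x7.toNat + x8.toNat + x9.toNat +
      x10.toNat ≤ 3) &&
    (!(decide (x3.toNat + x4.toNat + x5.toNat + x6.toNat + x7.toNat + x8.toNat + x9.toNat +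
      x10.toNat = 3)) || (x3 || (x4 || ((x5 || x6) && x8)))))

theorem gb_true : ∀ x3 x4 x5 x6 x7 x8 x9 x10 : Bool, gb x3 x4 x5 x6 x7 x8 x9 x10 = true := by
  decide

theorem group_bool (x3 x4 x5 x6 x7 x8 x9 x10 : Bool)
    (h1 : (x3 && x4) = false) (h2 : (x3 && x5) = false) (h3 : (x4 && x5) = false)
    (h4 : (x4 && x6) = false) (h5 : (x5 && x6) = false) (h6 : (x3 && x8) = false)
    (h7 : (x4 && x10) = false) (h8 : (x5 && x7) = false) (h9 : (x6 && x9) = false)
    (h10 : (x7 && x8) = false) (h11 : (x9 && x10) = false) (h12 : (x7 && x10) = false) :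
    (x3.toNat + x4.toNat + x5.toNat + x6.toNat + x7.toNat + x8.toNat + x9.toNat + x10.toNat ≤ 3 ∧
      (x3.toNat + x4.toNat + x5.toNat + x6.toNat + x7.toNat + x8.toNat + x9.toNat + x10.toNat = 3 →
        x3 = false → x4 = false → (x5 = true ∨ x6 = true) ∧ x8 = true)) := by
  have h := gb_true x3 x4 x5 x6 x7 x8 x9 x10
  unfold gb at h
  rw [h1, h2, h3, h4, h5, h6, h7, h8, h9, h10, h11, h12] at h
  simp only [Bool.or_false, Bool.false_or, Bool.and_eq_true, decide_eq_true_eq, Bool.or_eq_true,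
    Bool.not_eq_true'] at h
  refine ⟨h.1, fun h13 h14 h15 => ?_⟩
  rcases h.2 with h' | h' | h' | h'
  · exact absurd h13 (of_decide_eq_false h')
  · rw [h14] at h'
    exact absurd h' (by decide)
  · rw [h15] at h'
    exact absurd h' (by decide)
  · exact h'

section Sound

variable {n m : ℕ} {lit : ℕ → ℕ → Bool} {M : Finset (ℕ × ℕ × ℕ)}

theorem group_card (hv : ∀ e ∈ M, Vd n m e) (j i : ℕ) :
    (M.filter (fun e => cell e = Sum.inr (Sum.inr (j, i)))).card =
      (decide ((3, j, i) ∈ M)).toNat + (decide ((4, j, i) ∈ M)).toNat +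
      (decide ((5, j, i) ∈ M)).toNat + (decide ((6, j, i) ∈ M)).toNat +
      (decide ((7, j, i) ∈ M)).toNat + (decide ((8, j, i) ∈ M)).toNat +
      (decide ((9, j, i) ∈ M)).toNat + (decide ((10, j, i) ∈ M)).toNat := by
  have h1 : M.filter (fun e => cell e = Sum.inr (Sum.inr (j, i))) =
      ((Finset.range 11).filter (fun g => 3 ≤ g ∧ (g, j, i) ∈ M)).image (fun g => (g, j, i)) := by
    ext ⟨k, j', i'⟩
    simp only [Finset.mem_filter, Finset.mem_image, Finset.mem_range, Prod.mk.injEq]
    constructor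
    · rintro ⟨hM, hc⟩
      have := (hv _ hM).1
      unfold cell at hc
      simp only at hc this
      split_ifs at hc with h4 h5 h6 <;>
        simp only [Sum.inr.injEq, Prod.mk.injEq, reduceCtorEq] at hc
      obtain ⟨hc1, hc2⟩ := hc
      subst hc1
      subst hc2
      exact ⟨k, ⟨this, by omega, hM⟩, rfl, rfl, rfl⟩
    · rintro ⟨g, ⟨hg, hg3, hM⟩, rfl, rfl, rfl⟩
      refine ⟨hM, ?_⟩
      unfold cell
      simp only
      rw [if_neg (by omega), if_neg (by omega), if_neg (by omega)]
  rw [h1, Finset.card_image_of_injective _ (fun a b h => by simpa using h), Finset.card_filter]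
  simp only [Finset.sum_range_succ, Finset.sum_range_zero, Bool.toNat, cond_eq_ite,
    decide_eq_true_eq]
  norm_num

theorem no_pair (hM : ∀ e ∈ M, ∀ f ∈ M, e ≠ f → Bf lit e f ∨ Bf lit f e) (e f : ℕ × ℕ × ℕ)
    (hne : e ≠ f) (h1 : ¬ Bf lit e f) (h2 : ¬ Bf lit f e) :
    (decide (e ∈ M) && decide (f ∈ M)) = false := by
  by_contra h
  rw [Bool.not_eq_false, Bool.and_eq_true, decide_eq_true_eq, decide_eq_true_eq] at h
  rcases hM e h.1 f h.2 hne with h3 | h3
  · exact h1 h3
  · exact h2 h3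

theorem group (hv : ∀ e ∈ M, Vd n m e) (hM : ∀ e ∈ M, ∀ f ∈ M, e ≠ f → Bf lit e f ∨ Bf lit f e)
    (j i : ℕ) :
    (M.filter (fun e => cell e = Sum.inr (Sum.inr (j, i)))).card ≤ 3 ∧
      ((M.filter (fun e => cell e = Sum.inr (Sum.inr (j, i)))).card = 3 →
        (3, j, i) ∉ M → (4, j, i) ∉ M → ((5, j, i) ∈ M ∨ (6, j, i) ∈ M) ∧ (8, j, i) ∈ M) := by
  rw [group_card hv]
  have h := group_bool (decide ((3, j, i) ∈ M)) (decide ((4, j, i) ∈ M)) (decide ((5, j, i) ∈ M))
    (decide ((6, j, i) ∈ M)) (decide ((7, j, i) ∈ M)) (decide ((8, j, i) ∈ M))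
    (decide ((9, j, i) ∈ M)) (decide ((10, j, i) ∈ M))
    (no_pair hM _ _ (by simp) (by intro h; simp [Bf, Lx, lb, lc, ls, rs] at h <;> omega)
      (by intro h; simp [Bf, Lx, lb, lc, ls, rs] at h <;> omega))
    (no_pair hM _ _ (by simp) (by intro h; simp [Bf, Lx, lb, lc, ls, rs] at h <;> omega)
      (by intro h; simp [Bf, Lx, lb, lc, ls, rs] at h <;> omega))
    (no_pair hM _ _ (by simp) (by intro h; simp [Bf, Lx, lb, lc, ls, rs] at h <;> omega)
      (by intro h; simp [Bf, Lx, lb, lc, ls, rs] at h <;> omega))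
    (no_pair hM _ _ (by simp) (by intro h; simp [Bf, Lx, lb, lc, ls, rs] at h <;> omega)
      (by intro h; simp [Bf, Lx, lb, lc, ls, rs] at h <;> omega))
    (no_pair hM _ _ (by simp) (by intro h; simp [Bf, Lx, lb, lc, ls, rs] at h <;> omega)
      (by intro h; simp [Bf, Lx, lb, lc, ls, rs] at h <;> omega))
    (no_pair hM _ _ (by simp) (by intro h; simp [Bf, Lx, lb, lc, ls, rs] at h <;> omega)
      (by intro h; simp [Bf, Lx, lb, lc, ls, rs] at h <;> omega))
    (no_pair hM _ _ (by simp) (by intro h; simp [Bf, Lx, lb, lc, ls, rs] at h <;> omega)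
      (by intro h; simp [Bf, Lx, lb, lc, ls, rs] at h <;> omega))
    (no_pair hM _ _ (by simp) (by intro h; simp [Bf, Lx, lb, lc, ls, rs] at h <;> omega)
      (by intro h; simp [Bf, Lx, lb, lc, ls, rs] at h <;> omega))
    (no_pair hM _ _ (by simp) (by intro h; simp [Bf, Lx, lb, lc, ls, rs] at h <;> omega)
      (by intro h; simp [Bf, Lx, lb, lc, ls, rs] at h <;> omega))
    (no_pair hM _ _ (by simp) (by intro h; simp [Bf, Lx, lb, lc, ls, rs] at h <;> omega)
      (by intro h; simp [Bf, Lx, lb, lc, ls, rs] at h <;> omega))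
    (no_pair hM _ _ (by simp) (by intro h; simp [Bf, Lx, lb, lc, ls, rs] at h <;> omega)
      (by intro h; simp [Bf, Lx, lb, lc, ls, rs] at h <;> omega))
    (no_pair hM _ _ (by simp) (by intro h; simp [Bf, Lx, lb, lc, ls, rs] at h <;> omega)
      (by intro h; simp [Bf, Lx, lb, lc, ls, rs] at h <;> omega))
  refine ⟨h.1, fun h1 h2 h3 => ?_⟩
  have h4 := h.2 h1 (by simpa using h2) (by simpa using h3)
  simpa using h4

theorem card_le_cap (hv : ∀ e ∈ M, Vd n m e)
    (hM : ∀ e ∈ M, ∀ f ∈ M, e ≠ f → Bf lit e f ∨ Bf lit f e) (c : Cell) :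
    (M.filter (fun e => cell e = c)).card ≤ cap c := by
  rcases c with i | ⟨j, r⟩ | ⟨j, i⟩
  · change _ ≤ 1
    rw [Finset.card_le_one]
    rintro ⟨k, j, i'⟩ he ⟨k', j', i''⟩ hf
    simp only [Finset.mem_filter] at he hf
    have h1 := hv _ he.1
    have h2 := hv _ hf.1
    have h3 := he.2
    have h4 := hf.2
    unfold cell at h3 h4
    unfold Vd at h1 h2
    simp only at h1 h2 h3 h4
    split_ifs at h3 with h5
    split_ifs at h4 with h6
    simp only [Sum.inl.injEq] at h3 h4
    simp only [Prod.mk.injEq]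
    omega
  · change _ ≤ 1
    rw [Finset.card_le_one]
    rintro ⟨k, j', i'⟩ he ⟨k', j'', i''⟩ hf
    simp only [Finset.mem_filter] at he hf
    by_contra hne
    have h0 := hM _ he.1 _ hf.1 hne
    have h3 := he.2
    have h4 := hf.2
    unfold cell at h3 h4
    simp only at h3 h4
    split_ifs at h3 with h5 h6 h7 <;> split_ifs at h4 with h8 h9 h10 <;>
      simp only [Sum.inr.injEq, Sum.inl.injEq, Prod.mk.injEq, reduceCtorEq] at h3 h4
    · apply hne
      simp only [Prod.mk.injEq]
      omega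
    · subst h6
      subst h10
      obtain ⟨rfl, rfl⟩ := h3
      obtain ⟨rfl, h4⟩ := h4
      simp [Bf, Lx, lb, lc, ls, rs, h4] at h0
    · subst h7
      subst h9
      obtain ⟨rfl, h3⟩ := h3
      obtain ⟨rfl, rfl⟩ := h4
      simp [Bf, Lx, lb, lc, ls, rs, h3] at h0
    · apply hne
      simp only [Prod.mk.injEq]
      omega
  · exact (group hv hM j i).1

/-- **Soundness.** -/
theorem sound {k : ℕ} (hne : ∀ j < m, ∃ i < n, lit j i = true) (hv : ∀ e ∈ M, Vd n m e)
    (hM : ∀ e ∈ M, ∀ f ∈ M, e ≠ f → Bf lit e f ∨ Bf lit f e) (hc : caps n m ≤ M.card + k) :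
    ∃ H : Finset ℕ, (∀ i ∈ H, i < n) ∧ H.card ≤ k ∧ ∀ j < m, ∃ i ∈ H, lit j i = true := by
  classical
  choose! w hw hw' using hne
  set F : Cell → ℕ := fun c => (M.filter (fun e => cell e = c)).card with hF
  have hFle : ∀ c, F c ≤ cap c := card_le_cap hv hM
  have hsum : M.card = ∑ c ∈ cells n m, F c :=
    Finset.card_eq_sum_card_fiberwise (fun e he => cell_mem (hv e he))
  set Df : Finset Cell := (cells n m).filter (fun c => F c < cap c) with hDf
  have hDfcard : Df.card ≤ k := by
    have h1 : Df.card = ∑ c ∈ cells n m, (if F c < cap c then 1 else 0) := by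
      rw [hDf, Finset.card_filter]
    have h2 : ∑ c ∈ cells n m, (F c + (if F c < cap c then 1 else 0)) ≤
        ∑ c ∈ cells n m, cap c := by
      refine Finset.sum_le_sum fun c _ => ?_
      have := hFle c
      split_ifs <;> omega
    rw [Finset.sum_add_distrib, sum_cap, ← hsum, ← h1] at h2
    omega
  let hh : Cell → ℕ := fun c => match c with
    | Sum.inl i => i
    | Sum.inr (Sum.inl p) => w p.1
    | Sum.inr (Sum.inr p) => p.2
  refine ⟨Df.image hh, ?_, Finset.card_image_le.trans hDfcard, ?_⟩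
  · intro i hi
    rw [Finset.mem_image] at hi
    obtain ⟨c, hc, rfl⟩ := hi
    rw [hDf, Finset.mem_filter, mem_cells] at hc
    rcases hc.1 with ⟨i, hi, rfl⟩ | ⟨j, hj, r, hr, rfl⟩ | ⟨j, hj, i, hi, rfl⟩
    · exact hi
    · exact hw j hj
    · exact hi
  · intro j hj
    by_cases htok : ∃ r < n + 1, Sum.inr (Sum.inl (j, r)) ∈ Df
    · obtain ⟨r, hr, hr'⟩ := htok
      exact ⟨w j, Finset.mem_image.2 ⟨_, hr', rfl⟩, hw' j hj⟩
    push Not at htok
    -- every token has an edge
    have htok' : ∀ r < n + 1, (1, j, r) ∈ M ∨ (0 < r ∧ (2, j, r - 1) ∈ M) := by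
      intro r hr
      have h1 : ¬ F (Sum.inr (Sum.inl (j, r))) < 1 := by
        intro h
        refine htok r hr ?_
        rw [hDf, Finset.mem_filter, mem_cells]
        exact ⟨Or.inr (Or.inl ⟨j, hj, r, hr, rfl⟩), h⟩
      have h2 : 0 < F (Sum.inr (Sum.inl (j, r))) := by omega
      rw [hF, Finset.card_pos] at h2
      obtain ⟨⟨k', j', i'⟩, he⟩ := h2
      rw [Finset.mem_filter] at he
      obtain ⟨heM, hec⟩ := he
      unfold cell at hec
      simp only at hec
      split_ifs at hec with h5 h6 h7 <;>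
        simp only [Sum.inr.injEq, Sum.inl.injEq, Prod.mk.injEq, reduceCtorEq] at hec
      · obtain ⟨rfl, rfl⟩ := hec
        subst h6
        exact Or.inl heM
      · obtain ⟨rfl, hr⟩ := hec
        subst h7
        subst hr
        exact Or.inr ⟨by omega, by simpa using heM⟩
    -- a place where the value changes
    have hcr : ∃ i < n, (1, j, i) ∈ M ∧ (2, j, i) ∈ M := by
      by_contra hno
      push Not at hno
      have hall : ∀ r < n + 1, (1, j, r) ∈ M := by
        intro r
        induction r with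
        | zero =>
          intro hr
          rcases htok' 0 hr with h | h
          · exact h
          · omega
        | succ r ih =>
          intro hr
          rcases htok' (r + 1) hr with h | h
          · exact h
          · exfalso
            exact hno r (by omega) (ih (by omega)) (by simpa using h.2)
      have h1 := hv _ (hall n (by omega))
      unfold Vd at h1
      simp only at h1
      omega
    obtain ⟨i, hi, ht1, ht0⟩ := hcr
    have hlit : lit j i = true := by
      by_contra hl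
      rw [Bool.not_eq_true] at hl
      have h1 := hM _ ht1 _ ht0 (by simp)
      simp [Bf, Lx, lb, lc, ls, rs, al, hl] at h1
    refine ⟨i, ?_, hlit⟩
    by_contra hiH
    -- the column has no deficiency
    have hfull : ∀ c ∈ cells n m, hh c = i → ¬ F c < cap c := by
      intro c hc hci hlt
      refine hiH (Finset.mem_image.2 ⟨c, ?_, hci⟩)
      rw [hDf, Finset.mem_filter]
      exact ⟨hc, hlt⟩
    have hE : (0, m, i) ∈ M := by
      have h1 := hfull (Sum.inl i) (mem_cells.2 (Or.inl ⟨i, hi, rfl⟩)) rfl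
      have h2 : 0 < F (Sum.inl i) := by
        change ¬ F (Sum.inl i) < 1 at h1
        omega
      rw [hF, Finset.card_pos] at h2
      obtain ⟨⟨k', j', i'⟩, he⟩ := h2
      rw [Finset.mem_filter] at he
      obtain ⟨heM, hec⟩ := he
      have h3 := hv _ heM
      unfold cell at hec
      unfold Vd at h3
      simp only at hec h3
      split_ifs at hec with h5
      simp only [Sum.inl.injEq] at hec
      have h4 : j' = m := by omega
      subst h5
      subst h4
      subst hec
      exact heM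
    have hcard : ∀ j' < m, (M.filter (fun e => cell e = Sum.inr (Sum.inr (j', i)))).card = 3 := by
      intro j' hj'
      have h1 := hfull (Sum.inr (Sum.inr (j', i)))
        (mem_cells.2 (Or.inr (Or.inr ⟨j', hj', i, hi, rfl⟩))) rfl
      have h2 := hFle (Sum.inr (Sum.inr (j', i)))
      change ¬ F (Sum.inr (Sum.inr (j', i))) < 3 at h1
      change F (Sum.inr (Sum.inr (j', i))) ≤ 3 at h2
      change F (Sum.inr (Sum.inr (j', i))) = 3
      omega
    -- the vertex in slot `1` is used from the left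
    have hstep : ∀ j' < m, ((3, j', i) ∉ M ∧ (4, j', i) ∉ M) →
        ((5, j', i) ∈ M ∨ (6, j', i) ∈ M) ∧ (8, j', i) ∈ M := fun j' hj' h =>
      (group hv hM j' i).2 (hcard j' hj') h.1 h.2
    have hblk : ∀ j', j' < m → (3, j', i) ∉ M ∧ (4, j', i) ∉ M := by
      intro j'
      induction j' with
      | zero =>
        intro _
        constructor
        · intro h
          have h1 := hM _ hE _ h (by simp)
          simp [Bf, Lx, lb, lc, ls, rs] at h1
        · intro h
          have h1 := hM _ hE _ h (by simp)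
          simp [Bf, Lx, lb, lc, ls, rs] at h1
      | succ j' ih =>
        intro hj'
        have h8 := (hstep j' (by omega) (ih (by omega))).2
        constructor
        · intro h
          have h1 := hM _ h8 _ h (by simp)
          simp [Bf, Lx, lb, lc, ls, rs] at h1
          omega
        · intro h
          have h1 := hM _ h8 _ h (by simp)
          simp [Bf, Lx, lb, lc, ls, rs] at h1
          omega
    rcases (hstep j hj (hblk j hj)).1 with h | h
    · have h1 := hM _ ht1 _ h (by simp)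
      simp [Bf, Lx, lb, lc, ls, rs, al, hlit] at h1
    · have h1 := hM _ ht0 _ h (by simp)
      simp [Bf, Lx, lb, lc, ls, rs, al, hlit] at h1

end Sound

end Pool.Agent.TH660.NN
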